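import Mathlib
import Pool.Agent.H92.PH5

namespace Pool.Agent.Results.MP_c081e6_an.Simons

open Set Filter Topology MeasureTheory
open scoped ContDiff NNReal

abbrev E (n : ℕ) := EuclideanSpace ℝ (Fin n)

variable {n : ℕ}

/-- test functions `C_c^∞(Ω)` -/
def Test (Ω : Set (E n)) (φ : E n → ℝ) : Prop :=
  ContDiff ℝ ∞ φ ∧ HasCompactSupport φ ∧ tsupport φ ⊆ Ω

/-- `u ∈ W^{1,p}_loc(Ω)` (weak gradient `G`) is a weak solution of the `p`-Laplace equation -/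
def PHarm (p : ℝ) (Ω : Set (E n)) (u : E n → ℝ) : Prop :=
  ∃ G : E n → E n,
    (∀ K ⊆ Ω, IsCompact K → MemLp u (ENNReal.ofReal p) (volume.restrict K) ∧
      MemLp G (ENNReal.ofReal p) (volume.restrict K)) ∧
    ∀ φ, Test Ω φ →
      (∀ i, ∫ z in Ω, u z * fderiv ℝ φ z (EuclideanSpace.single i 1) = -∫ z in Ω, G z i * φ z) ∧
      ∫ z in Ω, ‖G z‖ ^ (p - 2) * inner ℝ (G z) (gradient φ z) = 0

/-- `C^s_loc(Ω) = C^{k,α}_loc(Ω)`, `s = k + α`, `α ∈ (0,1]`, i.e. `k = ⌈s⌉ - 1` -/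
def Cs (s : ℝ) (Ω : Set (E n)) (v : E n → ℝ) : Prop :=
  ContDiffOn ℝ (⌈s⌉₊ - 1 : ℕ) v Ω ∧ ∀ x ∈ Ω, ∃ U ∈ 𝓝 x, ∃ C : ℝ≥0,
    HolderOnWith C (s - (⌈s⌉₊ - 1 : ℕ)).toNNReal (iteratedFDeriv ℝ (⌈s⌉₊ - 1) v) U

/-- degree of regularity `γ(n,p)` (a Sobolev function lies in `C^s` if it has such a version) -/
noncomputable def gamma (n : ℕ) (p : ℝ) : EReal :=
  sSup ((↑) '' {s : ℝ | 0 < s ∧ ∀ Ω : Set (E n), IsOpen Ω → ∀ u, PHarm p Ω u →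
    ∃ v, v =ᵐ[volume.restrict Ω] u ∧ Cs s Ω v})

theorem joined : (∀ n, 8 ≤ n → ∀ p : ℝ, 1 < p → p ≤ 4 / 3 → gamma n p ≤ 3) ∧
    ¬∀ n, 3 ≤ n → Tendsto (gamma n) (𝓝[>] 1) (𝓝 ⊤) := by
  have key : ∀ n, 8 ≤ n → ∀ p : ℝ, 1 < p → p ≤ 4 / 3 → gamma n p ≤ 3 := by
    intro n hn p h1 h2
    refine sSup_le ?_
    rintro _ ⟨s, ⟨-, hs⟩, rfl⟩
    obtain ⟨u, G, a, b, c⟩ := Pool.Agent.H92.PH.main hn h1 h2
    obtain ⟨v, hv, h3, -⟩ := hs univ isOpen_univ u ⟨G, fun K _ hK => a K hK _, fun φ hφ => by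
      simpa only [Measure.restrict_univ] using b φ (hφ.1.of_le (by simp)) hφ.2.1⟩
    rw [Measure.restrict_univ] at hv
    by_contra h4
    have h5 : (3 : ℝ) < s := by
      exact EReal.coe_lt_coe_iff.1 (not_le.1 h4)
    have h6 : 3 < ⌈s⌉₊ := Nat.lt_ceil.2 (by exact_mod_cast h5)
    exact c v hv ((contDiffOn_univ.1 h3).of_le (by exact_mod_cast (by omega : 3 ≤ ⌈s⌉₊ - 1)))
  refine ⟨key, fun h => ?_⟩
  have h1 := (h 8 (by norm_num)).eventually (lt_mem_nhds (show (3 : EReal) < ⊤ from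
    EReal.coe_lt_top 3))
  obtain ⟨p, h2, h3⟩ := (h1.and (Ioc_mem_nhdsGT (show (1 : ℝ) < 4 / 3 by norm_num))).exists
  exact absurd (key 8 le_rfl p h3.1 h3.2) (not_le.2 h2)

theorem result : ∀ n, 8 ≤ n → ∀ p : ℝ, 1 < p → p ≤ 4 / 3 → gamma n p ≤ 3 := joined.1

end Pool.Agent.Results.MP_c081e6_an.Simons
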